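import Pool.Agent.Work.MP_a0fd6e_gt.Decomp

set_option autoImplicit false

universe u

open Pool.Agent.Work.MP_a0fd6e_gt

namespace Pool.Agent.Results.MP_a0fd6e_gt.OpenQuasiRay

/-- Every open subspace of a ray space is a quasi-ray space. -/
theorem result (X : Type u) [TopologicalSpace X] (hX : IsRaySpace X) (U : Set X)
    (hU : IsOpen U) : IsQuasiRay U :=
  isQuasiRay_of_isRaySpace X hX U hU

end Pool.Agent.Results.MP_a0fd6e_gt.OpenQuasiRay
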